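import Pool.Agent.Helper737.AmpleCore

/-!
The tower construction over a given countable field. Adapted from
`Pool.Agent.Helper737.AmpleTower` and `Pool.Agent.Helper737.AmpleCore`.
-/

set_option autoImplicit false

namespace Pool.Agent.Y51.AM

open Pool.Agent.Helper737.Ample

variable {Ω : Type} [Field Ω]

/-- the tower -/
theorem tower2 [CharZero Ω] [IsAlgClosed Ω] [Uncountable Ω] (K₀ : Subfield Ω)
    (h₀ : (K₀ : Set Ω).Countable) :
    ∃ (K : ℕ → Subfield Ω) (u : ℕ → Ω), K 0 = K₀ ∧ (∀ j, (K j : Set Ω).Countable) ∧ (∀ j, u j ∉ acl (K j)) ∧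
      (∀ j, Pext (adj (K j) {u j}) (K (j + 1))) ∧ ∀ j, Handles (adj (K j) {u j}) (K (j + 1)) := by
  have step : ∀ (K : {K : Subfield Ω // (K : Set Ω).Countable}), 
      ∃ (K' : {K : Subfield Ω // (K : Set Ω).Countable}) (u : Ω), u ∉ acl K.1 ∧ 
        Pext (adj K.1 {u}) K'.1 ∧ Handles (adj K.1 {u}) K'.1 := by
    rintro ⟨K, hK⟩
    obtain ⟨u, hu⟩ := exists_notMem_acl hK
    obtain ⟨F', h1, h2, h3⟩ := big_step (countable_adj hK (Set.countable_singleton u))
    exact ⟨⟨F', h1⟩, u, hu, h2, h3⟩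
  choose f u h1 h2 h3 using step
  let q : ℕ → {K : Subfield Ω // (K : Set Ω).Countable} := 
    fun l => Nat.rec ⟨K₀, h₀⟩ (fun _ K => f K) l
  exact ⟨fun j => (q j).1, fun j => u (q j), rfl, fun j => (q j).2, fun j => h1 (q j), 
    fun j => h2 (q j), fun j => h3 (q j)⟩

/-- The algebraic core. -/
theorem core2 [CharZero Ω] [IsAlgClosed Ω] [Uncountable Ω] (K₀ : Subfield Ω)
    (h₀ : (K₀ : Set Ω).Countable) : ∃ K : Subfield Ω, K₀ ≤ K ∧ (K : Set Ω).Countable ∧
    K ⊓ acl K₀ ≤ K₀ ∧
    (∃ x : Ω, Transcendental K x) ∧ 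
    (∀ (n : ℕ) (a : Fin n → Ω) (i₀ : Fin n), Transcendental K (a i₀) →
      (∀ i, IsAlgebraic (IntermediateField.adjoin K {a i₀}) (a i)) →
      (∀ z ∈ IntermediateField.adjoin K (Set.range a), IsAlgebraic K z →
        z ∈ (algebraMap K Ω).fieldRange) →
      ∀ T : Finset (MvPolynomial (Fin n) K), (∀ G ∈ T, MvPolynomial.aeval a G = 0) →
        ∃ s : Ω, s ^ 2 ∈ (algebraMap K Ω).fieldRange ∧
          {b : Fin n → Ω | (∀ i, b i ∈ IntermediateField.adjoin K {s}) ∧
            ∀ G ∈ T, MvPolynomial.aeval b G = 0}.Infinite) ∧ 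
    (∀ (M : Type) [Field M] [Algebra K M] [Algebra.IsAlgebraic K M] (φ : M →ₐ[K] Ω)
      (S : Set M), S.Finite → IntermediateField.adjoin K (S ∪ {z | φ z ∈ acl K₀}) = ⊤ →
      ∃ u : K, u ≠ 0 ∧ ∀ a b : M, a ^ 4 + algebraMap K M u * b ^ 4 = 1 → b = 0) := by
  obtain ⟨K, u, hK0, hK, hu, hP, hH⟩ := tower2 (Ω := Ω) K₀ h₀
  have hP0 : ∀ j, Pext (K j) (K (j + 1)) := fun j => (Pext.adj (hu j)).trans (hP j)
  have hmono : Monotone K := monotone_nat_of_le_succ fun j => (hP0 j).le
  set L : ℕ → Subfield Ω := fun j => adj (K j) {u j} with hL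
  have hKL : ∀ j, K j ≤ L j := fun j => le_adj _ _
  have hLK : ∀ j, L j ≤ K (j + 1) := fun j => (hP j).le
  have hLmono : Monotone L := monotone_nat_of_le_succ fun j => (hLK j).trans (hKL (j + 1))
  have hPL : ∀ j, Pext (L j) (L (j + 1)) := fun j => (hP j).trans (Pext.adj (hu (j + 1)))
  have hsup : ⨆ j, L j = ⨆ j, K j := by
    apply le_antisymm
    · exact iSup_le fun j => (hLK j).trans (le_iSup K (j + 1))
    · exact iSup_mono hKL
  have hLsup : ∀ j, Pext (L j) (⨆ j, K j) := fun j => hsup ▸ Pext.iSup hPL j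
  have hKc : ((⨆ j, K j : Subfield Ω) : Set Ω).Countable := by
    rw [Subfield.coe_iSup_of_directed hmono.directed_le]
    exact Set.countable_iUnion fun j => hK j
  refine ⟨⨆ j, K j, ?_, hKc, ?_, ?_, ?_, ?_⟩
  · rw [← hK0]; exact le_iSup K 0
  · have h1 := (Pext.iSup hP0 0).reg
    rw [hK0] at h1
    exact h1
  · obtain ⟨x, hx⟩ := exists_notMem_acl hKc
    exact ⟨x, fun h => hx (mem_acl.2 h)⟩
  · intro n a i₀ h1 h2 h3 T hT
    have hx : a i₀ ∉ acl (⨆ j, K j) := fun h => h1 (mem_acl.1 h)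
    have halg : ∀ i, a i ∈ acl (adj (⨆ j, K j) {a i₀}) := by
      intro i
      have h4 := h2 i
      rw [← adjoin_toSubfield, mem_acl]
      exact h4
    have hreg : adj (⨆ j, K j) (Set.range a) ⊓ acl (⨆ j, K j) ≤ ⨆ j, K j := by
      rintro z ⟨hz1, hz2⟩
      rw [← adjoin_toSubfield] at hz1
      obtain ⟨w, hw⟩ := h3 z hz1 (mem_acl.1 hz2)
      rw [← hw]; exact w.2
    -- choose a level
    have hlev : ∃ j, (∀ i, a i ∈ acl (adj (L j) {a i₀})) ∧ 
        ∀ G ∈ T, ∀ m ∈ G.support, ((G.coeff m : ↥(⨆ j, K j)) : Ω) ∈ L j := by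
      have h5 : ∀ i, ∃ j, a i ∈ acl (adj (L j) {a i₀}) := by
        intro i
        have h6 := halg i
        rw [← hsup, adj_iSup] at h6
        obtain ⟨j, -, hj⟩ := mem_acl_iSup (K := fun j => adj (L j) {a i₀}) 
          (fun _ _ hab => adj_mono (hLmono hab) subset_rfl) h6 0
        exact ⟨j, hj⟩
      choose g hg using h5
      have h7 : ∃ j, ∀ G ∈ T, ∀ m ∈ G.support, ((G.coeff m : ↥(⨆ j, K j)) : Ω) ∈ L j := by
        classical
        obtain ⟨j, -, hj⟩ := exists_coeffs hLmono (T.sigma (fun G => G.support)) 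
          (fun q => ((q.1.coeff q.2 : ↥(⨆ j, K j)) : Ω)) (by
            intro q _
            rw [hsup]
            exact (q.1.coeff q.2).2) 0
        exact ⟨j, fun G hG m hm => hj ⟨G, m⟩ (Finset.mem_sigma.2 ⟨hG, hm⟩)⟩
      obtain ⟨j₀, hj₀⟩ := h7
      refine ⟨max j₀ (Finset.univ.sup g), ?_, ?_⟩
      · intro i
        exact acl_mono (adj_mono (hLmono ((Finset.le_sup (Finset.mem_univ i)).trans 
          (le_max_right _ _))) subset_rfl) (hg i)
      · intro G hG m hm
        exact hLmono (le_max_left _ _) (hj₀ G hG m hm)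
    obtain ⟨j, hj1, hj2⟩ := hlev
    have hLK' : L j ≤ ⨆ j, K j := (hLsup j).le
    have hgen : IsGen (L j) i₀ a := by
      refine ⟨fun h => hx (acl_mono hLK' h), hj1, ?_⟩
      rintro z ⟨hz1, hz2⟩
      exact (hLsup j).reg ⟨hreg ⟨adj_mono hLK' subset_rfl hz1, acl_mono hLK' hz2⟩, hz2⟩
    obtain ⟨s, hs, c, hc, hcc⟩ := hH j n i₀ a hgen
    have hKj : K (j + 1) ≤ ⨆ j, K j := le_iSup K (j + 1)
    refine ⟨s, ⟨⟨s ^ 2, hKj hs⟩, rfl⟩, ?_⟩
    refine Set.infinite_of_injective_forall_mem hc ?_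
    intro m
    refine ⟨fun i => ?_, fun G hG => ?_⟩
    · have h8 : c m i ∈ (IntermediateField.adjoin ↥(⨆ j, K j) {s}).toSubfield := by
        rw [adjoin_toSubfield]
        exact adj_mono hKj subset_rfl ((hcc m).1 i)
      exact h8
    · -- descend G
      have h9 : ∃ G' : MvPolynomial (Fin n) (L j), MvPolynomial.map (Subfield.inclusion hLK') G' = G := by
        have : G ∈ Set.range (MvPolynomial.map (σ := Fin n) (Subfield.inclusion hLK')) := by
          rw [MvPolynomial.mem_range_map_iff_coeffs_subset]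
          intro w hw
          rw [Finset.mem_coe, MvPolynomial.mem_coeffs_iff] at hw
          obtain ⟨m', hm', rfl⟩ := hw
          exact ⟨⟨_, hj2 G hG m' hm'⟩, Subtype.ext rfl⟩
        exact this
      obtain ⟨G', hG'⟩ := h9
      have h10 : ∀ b : Fin n → Ω, MvPolynomial.aeval b G = MvPolynomial.aeval b G' := by
        intro b
        rw [← hG', MvPolynomial.aeval_def, MvPolynomial.eval₂_map, MvPolynomial.aeval_def]
        rfl
      rw [h10]
      exact ((hcc m).2 G').1 (by rw [← h10]; exact hT G hG)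
  · intro M _ _ _ φ S hS hgen
    -- a level containing M
    have hlev : ∃ j, ∀ z : M, φ z ∈ acl (K j) ⊔ ⨆ j, K j := by
      have h1 : ∀ i : M, ∃ j, φ i ∈ acl (K j) := by
        intro i
        have h2 : φ i ∈ acl (⨆ j, K j) := by
          rw [mem_acl]
          have h3 : IsAlgebraic ↥(⨆ j, K j) i := Algebra.IsAlgebraic.isAlgebraic i
          exact h3.algHom φ
        obtain ⟨j, -, hj⟩ := mem_acl_iSup hmono h2 0
        exact ⟨j, hj⟩
      choose g hg using h1
      refine ⟨hS.toFinset.sup g, fun z => ?_⟩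
      have hz : z ∈ IntermediateField.adjoin ↥(⨆ j, K j) (S ∪ {z | φ z ∈ acl K₀}) := by
        rw [hgen]; exact IntermediateField.mem_top
      induction hz using IntermediateField.adjoin_induction with
      | mem x hx =>
        apply (le_sup_left : acl (K _) ≤ acl (K _) ⊔ ⨆ j, K j)
        rcases hx with hx | hx
        · exact acl_mono (hmono (Finset.le_sup (hS.mem_toFinset.2 hx))) (hg x)
        · have hx' : φ x ∈ acl K₀ := hx
          rw [← hK0] at hx'
          exact acl_mono (hmono (Nat.zero_le _)) hx'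
      | algebraMap x =>
        rw [AlgHom.commutes]
        exact (le_sup_right : ⨆ j, K j ≤ acl (K _) ⊔ ⨆ j, K j) x.2
      | add x y _ _ hx hy => rw [map_add]; exact Subfield.add_mem _ hx hy
      | inv x _ hx => rw [map_inv₀]; exact Subfield.inv_mem _ hx
      | mul x y _ _ hx hy => rw [map_mul]; exact Subfield.mul_mem _ hx hy
    obtain ⟨j, hj⟩ := hlev
    have huK : u j ∈ ⨆ j, K j := (hLsup j).le (subset_adj _ _ rfl)
    have hu0 : u j ≠ 0 := by
      intro h
      exact hu j (by rw [h]; exact Subfield.zero_mem _)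
    refine ⟨⟨u j, huK⟩, ?_, ?_⟩
    · intro h
      exact hu0 (congrArg Subtype.val h)
    · intro a b hab
      exact (by
        have hab' : (φ a) ^ 4 + u j * (φ b) ^ 4 = 1 := by
          have := congrArg φ hab
          simp only [map_add, map_mul, map_pow, map_one, AlgHom.commutes] at this
          exact this
        obtain ⟨v, hv⟩ := IsAlgClosed.exists_pow_nat_eq (u j) (n := 4) (by norm_num)
        have hv0 : v ≠ 0 := by
          rintro rfl
          apply hu0
          rw [← hv]; norm_num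
        have hvL : v ∈ acl (L j) := by
          rw [mem_acl_iff]
          refine ⟨Polynomial.X ^ 4 - Polynomial.C (u j), ?_, ?_, ?_⟩
          · exact Polynomial.X_pow_sub_C_ne_zero (by norm_num) _
          · intro n
            rw [Polynomial.coeff_sub, Polynomial.coeff_X_pow, Polynomial.coeff_C]
            apply Subfield.sub_mem
            · split_ifs
              · exact Subfield.one_mem _
              · exact Subfield.zero_mem _
            · split_ifs
              · exact subset_adj _ _ rfl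
              · exact Subfield.zero_mem _
          · simp [hv]
        have hAle : acl (K j) ⊔ ⨆ j, K j ≤ acl (L j) ⊔ ⨆ j, K j := 
          sup_le_sup_right (acl_mono (hKL j)) _
        have h3 := (hLsup j).fer (φ a) (hAle (hj a)) (v * φ b) 
          (Subfield.mul_mem _ ((le_sup_left : _ ≤ acl (L j) ⊔ ⨆ j, K j) hvL) (hAle (hj b))) 
          (by rw [mul_pow, hv]; exact hab')
        have hb : φ b ∈ acl (L j) := by
          have : φ b = v⁻¹ * (v * φ b) := by field_simp
          rw [this]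
          exact Subfield.mul_mem _ (Subfield.inv_mem _ hvL) h3.2
        have h4 : acl (K j) ⊔ L j ≤ adj (acl (K j)) {u j} := 
          sup_le (le_adj _ _) (adj_mono (le_acl _) subset_rfl)
        have ha' := h4 (sup_inf_acl (hKL j) (hLsup j).le (hLsup j).reg ⟨hj a, h3.1⟩)
        have hb' := h4 (sup_inf_acl (hKL j) (hLsup j).le (hLsup j).reg ⟨hj b, hb⟩)
        have h5 := twisted_fermat_adj (acl_idem (K j)) (by rw [acl_idem]; exact hu j) ha' hb' hab'
        exact (map_eq_zero φ).1 h5)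

end Pool.Agent.Y51.AM
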