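import Pool.Agent.Helper737.AmpleB

/-!
Curves over a field with quadratic approximation of generic points acquire infinitely many points
over an extension of degree at most two. Adapted from `Pool.Agent.Helper737.AmpleB`.
-/

set_option autoImplicit false

open AlgebraicGeometry CategoryTheory

namespace Pool.Agent.Y51.AM

open Pool.Agent.Helper737.Ample

theorem alg_part2 {K : Type} [Field K] (Ω : Type) [Field Ω] [Algebra K Ω]
    [IsAlgClosed Ω] (hx : ∃ x : Ω, Transcendental K x)
    (H : ∀ (n : ℕ) (a : Fin n → Ω) (i₀ : Fin n), Transcendental K (a i₀) →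
      (∀ i, IsAlgebraic (IntermediateField.adjoin K {a i₀}) (a i)) →
      (∀ z ∈ IntermediateField.adjoin K (Set.range a), IsAlgebraic K z →
        z ∈ (algebraMap K Ω).fieldRange) →
      ∀ T : Finset (MvPolynomial (Fin n) K), (∀ G ∈ T, MvPolynomial.aeval a G = 0) →
        ∃ s : Ω, s ^ 2 ∈ (algebraMap K Ω).fieldRange ∧
          {b : Fin n → Ω | (∀ i, b i ∈ IntermediateField.adjoin K {s}) ∧
            ∀ G ∈ T, MvPolynomial.aeval b G = 0}.Infinite)
    (A : Type) [CommRing A] [IsDomain A] [Algebra K A] [Algebra.FiniteType K A]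
    (hdim : Ring.KrullDimLE 1 A) (hfield : ¬ IsField A)
    (hgeo : ∀ (L : Type) [Field L] [Algebra K L], IsDomain (TensorProduct K A L)) :
    ∃ (L : Type) (_ : Field L) (_ : Algebra K L), FiniteDimensional K L ∧
      Module.finrank K L ≤ 2 ∧ Infinite (A →ₐ[K] L) := by
  obtain ⟨n, φ, hφ⟩ := Algebra.FiniteType.iff_quotient_mvPolynomial''.1
    (inferInstance : Algebra.FiniteType K A)
  have hadj : Algebra.adjoin K (Set.range (fun i => φ (MvPolynomial.X i))) = ⊤ := by
    rw [Algebra.adjoin_range_eq_range_aeval]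
    have : MvPolynomial.aeval (fun i => φ (MvPolynomial.X i)) = φ := by
      ext i; simp
    rw [this]
    exact (AlgHom.range_eq_top φ).2 hφ
  have hi : ∃ i0, Transcendental K (φ (MvPolynomial.X i0)) := by
    by_contra hcon
    push Not at hcon
    have h1 : (Algebra.adjoin K (Set.range (fun i => φ (MvPolynomial.X i)))).IsAlgebraic := by
      rw [Algebra.isAlgebraic_adjoin_iff]
      rintro _ ⟨i, rfl⟩
      by_contra h
      exact hcon i h
    rw [hadj] at h1
    have h2 : Algebra.IsAlgebraic K A := Algebra.isAlgebraic_iff.2 h1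
    have h3 : Algebra.IsIntegral K A := Algebra.isAlgebraic_iff_isIntegral.1 h2
    exact hfield (isField_of_isIntegral_of_isField' (Field.toIsField K))
  obtain ⟨i0, hi0⟩ := hi
  obtain ⟨ψ, hψ, hψ0, hψa⟩ := exists_emb Ω hx A hdim _ hi0
  have hcomp : MvPolynomial.aeval (fun i => ψ (φ (MvPolynomial.X i))) = ψ.comp φ := by
    ext i; simp
  have hker : ∀ G, MvPolynomial.aeval (fun i => ψ (φ (MvPolynomial.X i))) G = 0 ↔ φ G = 0 := by
    intro G
    rw [hcomp]
    constructor
    · intro h
      apply hψ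
      rw [map_zero]; exact h
    · intro h
      change ψ (φ G) = 0
      rw [h, map_zero]
  obtain ⟨T, hT⟩ : (RingHom.ker φ).FG := IsNoetherian.noetherian _
  obtain ⟨s, hs, hinf⟩ := H n (fun i => ψ (φ (MvPolynomial.X i))) i0 hψ0 (fun i => hψa _) (by
    intro z hz hzalg
    rw [IntermediateField.mem_adjoin_range_iff] at hz
    obtain ⟨r, t, hrt⟩ := hz
    rw [hcomp] at hrt
    change z = ψ (φ r) / ψ (φ t) at hrt
    by_cases ht : φ t = 0
    · rw [ht, map_zero, div_zero] at hrt
      rw [hrt]
      exact zero_mem _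
    · refine closed_in A hgeo ψ hψ z (φ r) (φ t) ht ?_ hzalg
      rw [hrt, div_mul_cancel₀]
      intro h0
      apply ht
      apply hψ
      rw [h0, map_zero]) T (by
    intro G hG
    rw [hker]
    have : G ∈ RingHom.ker φ := by rw [← hT]; exact Ideal.subset_span hG
    exact this)
  have hsalg : IsIntegral K s := by
    obtain ⟨c, hc⟩ := hs
    refine ⟨Polynomial.X ^ 2 - Polynomial.C c, Polynomial.monic_X_pow_sub_C c two_ne_zero, ?_⟩
    simp [hc]
  have hrank : Module.finrank K (IntermediateField.adjoin K {s}) ≤ 2 := by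
    rw [IntermediateField.adjoin.finrank hsalg]
    obtain ⟨c, hc⟩ := hs
    have h0 : (Polynomial.X ^ 2 - Polynomial.C c : Polynomial K) ≠ 0 :=
      (Polynomial.monic_X_pow_sub_C c two_ne_zero).ne_zero
    have h1 := Polynomial.natDegree_le_of_dvd (minpoly.dvd K s
      (p := Polynomial.X ^ 2 - Polynomial.C c) (by simp [hc])) h0
    rwa [Polynomial.natDegree_X_pow_sub_C] at h1
  refine ⟨IntermediateField.adjoin K {s}, inferInstance, inferInstance,
    IntermediateField.adjoin.finiteDimensional hsalg, hrank, ?_⟩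
  have hInf : Infinite {b : Fin n → Ω | (∀ i, b i ∈ IntermediateField.adjoin K {s}) ∧
            ∀ G ∈ T, MvPolynomial.aeval b G = 0} := hinf.to_subtype
  let mk : {b : Fin n → Ω | (∀ i, b i ∈ IntermediateField.adjoin K {s}) ∧
            ∀ G ∈ T, MvPolynomial.aeval b G = 0} → (MvPolynomial (Fin n) K →ₐ[K]
              IntermediateField.adjoin K {s}) := fun b =>
    MvPolynomial.aeval (fun i => ⟨b.1 i, b.2.1 i⟩)
  have hmk : ∀ b G, ((mk b G : IntermediateField.adjoin K {s}) : Ω) = MvPolynomial.aeval b.1 G := by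
    intro b G
    change (IntermediateField.adjoin K {s}).val (MvPolynomial.aeval _ G) = _
    rw [← AlgHom.comp_apply]
    congr 1
    ext i
    simp
  have hmk0 : ∀ b G, φ G = 0 → mk b G = 0 := by
    intro b G hG
    have h1 : G ∈ Ideal.span (T : Set (MvPolynomial (Fin n) K)) := by
      have : G ∈ RingHom.ker φ := hG
      rw [← hT] at this; exact this
    have h2 : Ideal.span (T : Set (MvPolynomial (Fin n) K)) ≤ RingHom.ker (mk b) := by
      rw [Ideal.span_le]
      intro F hF
      change mk b F = 0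
      apply Subtype.ext
      rw [hmk]
      exact b.2.2 F hF
    exact h2 h1
  have hlift : ∀ b, ∃ g : A →ₐ[K] IntermediateField.adjoin K {s}, g.comp φ = mk b := by
    intro b
    let e := Ideal.quotientKerAlgEquivOfSurjective hφ
    let g0 : (MvPolynomial (Fin n) K ⧸ RingHom.ker φ) →ₐ[K] IntermediateField.adjoin K {s} :=
      Ideal.Quotient.liftₐ (RingHom.ker φ) (mk b) (fun G hG => hmk0 b G hG)
    refine ⟨g0.comp e.symm.toAlgHom, ?_⟩
    ext i
    have : e.symm (φ (MvPolynomial.X i)) = Ideal.Quotient.mk _ (MvPolynomial.X i) := by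
      rw [AlgEquiv.symm_apply_eq]
      rfl
    change ((g0 (e.symm (φ (MvPolynomial.X i))) : IntermediateField.adjoin K {s}) : Ω) = _
    rw [this]
    rfl
  choose g hg using hlift
  apply Infinite.of_injective g
  intro b b' hbb
  apply Subtype.ext
  funext i
  have h1 := hg b
  have h2 := hg b'
  rw [hbb, h2] at h1
  have h3 := congrArg (fun m : (MvPolynomial (Fin n) K →ₐ[K] IntermediateField.adjoin K {s}) =>
    ((m (MvPolynomial.X i) : IntermediateField.adjoin K {s}) : Ω)) h1
  simp only [hmk, MvPolynomial.aeval_X] at h3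
  exact h3.symm

theorem quadratic_of_tuples {K : Type} [Field K] [CharZero K] (Ω : Type) [Field Ω] [Algebra K Ω]
    [IsAlgClosed Ω] (hx : ∃ x : Ω, Transcendental K x)
    (H : ∀ (n : ℕ) (a : Fin n → Ω) (i₀ : Fin n), Transcendental K (a i₀) →
      (∀ i, IsAlgebraic (IntermediateField.adjoin K {a i₀}) (a i)) →
      (∀ z ∈ IntermediateField.adjoin K (Set.range a), IsAlgebraic K z →
        z ∈ (algebraMap K Ω).fieldRange) →
      ∀ T : Finset (MvPolynomial (Fin n) K), (∀ G ∈ T, MvPolynomial.aeval a G = 0) →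
        ∃ s : Ω, s ^ 2 ∈ (algebraMap K Ω).fieldRange ∧
          {b : Fin n → Ω | (∀ i, b i ∈ IntermediateField.adjoin K {s}) ∧
            ∀ G ∈ T, MvPolynomial.aeval b G = 0}.Infinite) :
    ∀ (C : Scheme.{0}) (f : C ⟶ Spec (.of K)), IsCurve f →
      ∃ (L : Type) (_ : Field L) (_ : Algebra K L), FiniteDimensional K L ∧
        Module.finrank K L ≤ 2 ∧ Infinite (Points f L) := by
  intro C f hC
  obtain ⟨A, _, _, _, _, hdim, hfield, hgeo, j, hj, hjf⟩ := scheme_part f hC
  obtain ⟨L, _, _, hfd, hrk, hinf⟩ := alg_part2 Ω hx H A hdim hfield hgeo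
  refine ⟨L, inferInstance, inferInstance, hfd, hrk, ?_⟩
  let P : (A →ₐ[K] L) → Points f L := fun φ =>
    ⟨Spec.map (CommRingCat.ofHom φ.toRingHom) ≫ j, by
      rw [Category.assoc, hjf, ← Spec.map_comp, ← CommRingCat.ofHom_comp]
      congr 2
      exact RingHom.ext fun x => φ.commutes x⟩
  refine Infinite.of_injective P ?_
  intro φ φ' h
  have h1 : Spec.map (CommRingCat.ofHom φ.toRingHom) ≫ j =
      Spec.map (CommRingCat.ofHom φ'.toRingHom) ≫ j := congrArg Subtype.val h
  have h2 := (cancel_mono j).1 h1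
  have h3 := Spec.map_injective h2
  have h4 : φ.toRingHom = φ'.toRingHom := congrArg CommRingCat.Hom.hom h3
  ext x
  exact RingHom.congr_fun h4 x

end Pool.Agent.Y51.AM
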